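import Pool.Agent.Helper52.TC.Spec

/-! Module L1: every tour with unit steps is among the exponent vectors. -/

set_option autoImplicit false

open Topology Filter

namespace Pool.Agent.Helper37.TC

open Pool.Agent.Helper52.TC

theorem rd2_comm (p q : ℝ × ℝ) : rd2 p q = rd2 q p := by
  unfold rd2
  congr 1
  ring

theorem rd2_continuous {m : ℕ} (i j : Fin m) :
    Continuous fun q : Fin m → ℝ × ℝ => rd2 (q i) (q j) := by
  unfold rd2
  fun_prop

theorem rot_ne {m : ℕ} (hm : 3 ≤ m) (i : Fin m) : finRotate m i ≠ i := by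
  obtain ⟨k, rfl⟩ := Nat.exists_eq_add_of_le' hm
  rw [finRotate_apply]
  intro h
  simp at h

theorem rot_rot_ne {m : ℕ} (hm : 3 ≤ m) (i : Fin m) : finRotate m (finRotate m i) ≠ i := by
  obtain ⟨k, rfl⟩ := Nat.exists_eq_add_of_le' hm
  rw [finRotate_apply, finRotate_apply, add_assoc]
  intro h
  have h1 : (1 + 1 : Fin (k + 2 + 1)) = 0 := by simpa using h
  have h2 := congrArg Fin.val h1
  rw [Fin.val_add] at h2
  have h3 : ((1 : Fin (k + 2 + 1)) : ℕ) = 1 := by
    rw [Fin.val_one]
  rw [h3, Nat.mod_eq_of_lt (by omega)] at h2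
  simp at h2

theorem step_ne {m : ℕ} (hm : 3 ≤ m) (σ : Equiv.Perm (Fin m)) (i : Fin m) :
    σ i ≠ σ (finRotate m i) := fun h => rot_ne hm i (σ.injective h).symm

theorem tc_comm {m : ℕ} (σ : Equiv.Perm (Fin m)) (u v : Fin m) : tc σ u v = tc σ v u := by
  unfold tc
  congr 1
  ext i
  simp only [Finset.mem_filter, Finset.mem_univ, true_and]
  exact or_comm

theorem tc_step {m : ℕ} (σ : Equiv.Perm (Fin m)) (i : Fin m) :
    tc σ (σ i) (σ (finRotate m i)) ≠ 0 := by
  unfold tc
  rw [Finset.card_ne_zero]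
  exact ⟨i, by simp⟩

theorem tc_exists {m : ℕ} (σ : Equiv.Perm (Fin m)) {u v : Fin m} (h : tc σ u v ≠ 0) :
    ∃ i, (σ i = u ∧ σ (finRotate m i) = v) ∨ (σ i = v ∧ σ (finRotate m i) = u) := by
  unfold tc at h
  rw [Finset.card_ne_zero] at h
  obtain ⟨i, hi⟩ := h
  exact ⟨i, by simpa using hi⟩

theorem tc_le_one {m : ℕ} (hm : 3 ≤ m) (σ : Equiv.Perm (Fin m)) (u v : Fin m) :
    tc σ u v ≤ 1 := by
  unfold tc
  rw [Finset.card_le_one]
  intro i hi j hj
  simp only [Finset.mem_filter, Finset.mem_univ, true_and] at hi hj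
  rcases hi with ⟨h1, h2⟩ | ⟨h1, h2⟩ <;> rcases hj with ⟨h3, h4⟩ | ⟨h3, h4⟩
  · exact σ.injective (h1.trans h3.symm)
  · have h5 : i = finRotate m j := σ.injective (h1.trans h4.symm)
    have h6 : finRotate m i = j := σ.injective (h2.trans h3.symm)
    exact absurd (by rw [h6, ← h5]) (rot_rot_ne hm i)
  · have h5 : i = finRotate m j := σ.injective (h1.trans h4.symm)
    have h6 : finRotate m i = j := σ.injective (h2.trans h3.symm)
    exact absurd (by rw [h6, ← h5]) (rot_rot_ne hm i)
  · exact σ.injective (h1.trans h3.symm)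

theorem tc_eq {m : ℕ} (hm : 3 ≤ m) (σ : Equiv.Perm (Fin m)) (u v : Fin m) :
    (tc σ u v : ℝ) = ∑ i, ((if u = σ i ∧ v = σ (finRotate m i) then (1 : ℝ) else 0) +
      (if u = σ (finRotate m i) ∧ v = σ i then 1 else 0)) := by
  unfold tc
  rw [← Finset.sum_boole]
  refine Finset.sum_congr rfl fun i _ => ?_
  have hne := step_ne hm σ i
  by_cases h1 : σ i = u ∧ σ (finRotate m i) = v
  · have h2 : ¬ (u = σ (finRotate m i) ∧ v = σ i) := by
      rintro ⟨h3, h4⟩
      exact hne (h1.1.trans h3)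
    rw [if_pos (Or.inl h1), if_pos ⟨h1.1.symm, h1.2.symm⟩, if_neg h2, add_zero]
  · have h1' : ¬ (u = σ i ∧ v = σ (finRotate m i)) := fun h => h1 ⟨h.1.symm, h.2.symm⟩
    by_cases h2 : σ i = v ∧ σ (finRotate m i) = u
    · rw [if_pos (Or.inr h2), if_neg h1', if_pos ⟨h2.2.symm, h2.1.symm⟩, zero_add]
    · have h2' : ¬ (u = σ (finRotate m i) ∧ v = σ i) := fun h => h2 ⟨h.2.symm, h.1.symm⟩
      rw [if_neg (fun h => h.elim h1 h2), if_neg h1', if_neg h2', add_zero]

theorem sum_ite_pair {m : ℕ} (f : Fin m × Fin m → ℝ) (a b : Fin m) :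
    ∑ e : Fin m × Fin m, (if e.1 = a ∧ e.2 = b then (1 : ℝ) else 0) * f e = f (a, b) := by
  rw [Finset.sum_eq_single (a, b)]
  · simp
  · rintro ⟨u, v⟩ _ hne
    rw [if_neg, zero_mul]
    rintro ⟨h1, h2⟩
    exact hne (Prod.ext h1 h2)
  · simp

theorem sum_tc {m : ℕ} (hm : 3 ≤ m) (σ : Equiv.Perm (Fin m)) (f : Fin m × Fin m → ℝ) :
    ∑ e : Fin m × Fin m, (tc σ e.1 e.2 : ℝ) * f e =
      ∑ i, (f (σ i, σ (finRotate m i)) + f (σ (finRotate m i), σ i)) := by
  have h1 : ∀ e : Fin m × Fin m, (tc σ e.1 e.2 : ℝ) * f e =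
      ∑ i, ((if e.1 = σ i ∧ e.2 = σ (finRotate m i) then (1 : ℝ) else 0) * f e +
      (if e.1 = σ (finRotate m i) ∧ e.2 = σ i then 1 else 0) * f e) := by
    intro e
    rw [tc_eq hm, Finset.sum_mul]
    exact Finset.sum_congr rfl fun i _ => add_mul _ _ _
  rw [Finset.sum_congr rfl fun e _ => h1 e, Finset.sum_comm]
  refine Finset.sum_congr rfl fun i _ => ?_
  rw [Finset.sum_add_distrib, sum_ite_pair, sum_ite_pair]

theorem rlen_eq {m : ℕ} (hm : 3 ≤ m) (q : Fin m → ℝ × ℝ) (σ : Equiv.Perm (Fin m)) :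
    rlen q σ = ∑ e : Fin m × Fin m, ((tc σ e.1 e.2 : ℝ) / 2) * rd2 (q e.1) (q e.2) := by
  have h := sum_tc hm σ (fun e => rd2 (q e.1) (q e.2) / 2)
  have h1 : ∑ e : Fin m × Fin m, ((tc σ e.1 e.2 : ℝ) / 2) * rd2 (q e.1) (q e.2) =
      ∑ e : Fin m × Fin m, (tc σ e.1 e.2 : ℝ) * (rd2 (q e.1) (q e.2) / 2) :=
    Finset.sum_congr rfl fun e _ => by ring
  rw [h1, h, rlen]
  refine Finset.sum_congr rfl fun i _ => ?_
  rw [rd2_comm (q (σ (finRotate m i)))]
  ring

theorem sum_tc_one {m : ℕ} (hm : 3 ≤ m) (σ : Equiv.Perm (Fin m)) :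
    ∑ e : Fin m × Fin m, (tc σ e.1 e.2 : ℝ) = 2 * m := by
  have h := sum_tc hm σ (fun _ => 1)
  simp only [mul_one] at h
  rw [h]
  simp
  ring

/-- tours which use edges of `τ` only have the same edges -/
theorem tc_eq_of_steps {m : ℕ} (hm : 3 ≤ m) (σ τ : Equiv.Perm (Fin m))
    (h : ∀ i, tc τ (σ i) (σ (finRotate m i)) ≠ 0) (u v : Fin m) : tc σ u v = tc τ u v := by
  have hle : ∀ e : Fin m × Fin m, (tc σ e.1 e.2 : ℝ) ≤ (tc τ e.1 e.2 : ℝ) := by
    intro e
    have h0 : tc σ e.1 e.2 ≤ tc τ e.1 e.2 := by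
      by_cases h1 : tc σ e.1 e.2 = 0
      · omega
      · have h2 := tc_le_one hm σ e.1 e.2
        have h3 : tc τ e.1 e.2 ≠ 0 := by
          obtain ⟨i, ⟨h3, h4⟩ | ⟨h3, h4⟩⟩ := tc_exists σ h1
          · have := h i
            rwa [h3, h4] at this
          · have := h i
            rwa [h3, h4, tc_comm] at this
        omega
    exact_mod_cast h0
  have hsum : ∑ e : Fin m × Fin m, (tc σ e.1 e.2 : ℝ) = ∑ e : Fin m × Fin m, (tc τ e.1 e.2 : ℝ) := by
    rw [sum_tc_one hm, sum_tc_one hm]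
  have h1 := (Finset.sum_eq_sum_iff_of_le fun e _ => hle e).1 hsum (u, v) (Finset.mem_univ _)
  exact_mod_cast h1

theorem Un_symm {p q : ℕ × ℕ} (h : Un p q) : Un q p := by
  unfold Un at h ⊢
  tauto

/-- a finite family of closed sets covering a nonempty open set: one of them has interior points in
the open set -/
theorem exists_interior {Y ι : Type*} [TopologicalSpace Y] (Z : ι → Set Y)
    (hZ : ∀ i, IsClosed (Z i)) (s : Finset ι) : ∀ U : Set Y, IsOpen U → U.Nonempty →
    (∀ y ∈ U, ∃ i ∈ s, y ∈ Z i) → ∃ i ∈ s, (U ∩ interior (Z i)).Nonempty := by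
  classical
  induction s using Finset.induction_on with
  | empty =>
    intro U _ hne h
    obtain ⟨y, hy⟩ := hne
    obtain ⟨i, hi, -⟩ := h y hy
    simp at hi
  | insert a s ha ih =>
    intro U hU hne h
    by_cases hU' : (U ∩ interior (Z a)).Nonempty
    · exact ⟨a, Finset.mem_insert_self _ _, hU'⟩
    · have hne' : (U \ Z a).Nonempty := by
        by_contra hcon
        rw [Set.not_nonempty_iff_eq_empty, Set.sdiff_eq_empty] at hcon
        obtain ⟨y, hy⟩ := hne
        exact hU' ⟨y, hy, interior_maximal hcon hU hy⟩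
      obtain ⟨i, hi, y, hy, hyi⟩ := ih (U \ Z a) (hU.sdiff (hZ a)) hne' (fun y hy => by
        obtain ⟨i, hi, hyi⟩ := h y hy.1
        rcases Finset.mem_insert.1 hi with rfl | hi
        · exact absurd hyi hy.2
        · exact ⟨i, hi, hyi⟩)
      exact ⟨i, Finset.mem_insert_of_mem hi, y, hy.1, hyi⟩

/-- mixed second differences: if `∑ c e * dist e` vanishes near `q`, then the coefficients of the
pairs of points of `q` which are different vanish -/
theorem coeff_eq_zero {m : ℕ} (c : Fin m × Fin m → ℝ) (q : Fin m → ℝ × ℝ)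
    (h : ∀ᶠ q' in 𝓝 q, ∑ e : Fin m × Fin m, c e * rd2 (q' e.1) (q' e.2) = 0) {u v : Fin m}
    (huv : u ≠ v) (hq : q u ≠ q v) : c (u, v) + c (v, u) = 0 := by
  set x : ℝ × ℝ := q u - q v with hx
  -- the perturbations
  let A : ℝ → Fin m → ℝ × ℝ := fun s => Function.update q u (q u + s • (-x.2, x.1))
  let B : ℝ → Fin m → ℝ × ℝ := fun s => Function.update q v (q v + s • (-x.2, x.1))
  let C : ℝ → Fin m → ℝ × ℝ := fun s =>
    Function.update (Function.update q u (q u + s • (-x.2, x.1))) v (q v + s • (-x.2, x.1))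
  have hA0 : A 0 = q := by simp [A]
  have hB0 : B 0 = q := by simp [B]
  have hC0 : C 0 = q := by
    simp only [C, zero_smul, add_zero, Function.update_eq_self]
  have hAc : Continuous A := by
    refine continuous_const.update u ?_
    fun_prop
  have hBc : Continuous B := by
    refine continuous_const.update v ?_
    fun_prop
  have hCc : Continuous C := by
    refine (continuous_const.update u ?_).update v ?_ <;> fun_prop
  have eA : ∀ᶠ s in 𝓝 (0 : ℝ), ∑ e : Fin m × Fin m, c e * rd2 (A s e.1) (A s e.2) = 0 := by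
    have := hAc.continuousAt (x := (0 : ℝ))
    unfold ContinuousAt at this
    rw [hA0] at this
    exact this.eventually h
  have eB : ∀ᶠ s in 𝓝 (0 : ℝ), ∑ e : Fin m × Fin m, c e * rd2 (B s e.1) (B s e.2) = 0 := by
    have := hBc.continuousAt (x := (0 : ℝ))
    unfold ContinuousAt at this
    rw [hB0] at this
    exact this.eventually h
  have eC : ∀ᶠ s in 𝓝 (0 : ℝ), ∑ e : Fin m × Fin m, c e * rd2 (C s e.1) (C s e.2) = 0 := by
    have := hCc.continuousAt (x := (0 : ℝ))
    unfold ContinuousAt at this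
    rw [hC0] at this
    exact this.eventually h
  obtain ⟨s, ⟨⟨hsA, hsB⟩, hsC⟩, hs0⟩ := (((eA.and eB).and eC).filter_mono
    (nhdsWithin_le_nhds (s := {(0 : ℝ)}ᶜ))).and (self_mem_nhdsWithin) |>.exists
  have hs : s ≠ 0 := hs0
  have hq0 := h.self_of_nhds
  have hX : 0 < x.1 ^ 2 + x.2 ^ 2 := by
    by_contra hcon
    have h1 : x.1 = 0 := by nlinarith [sq_nonneg x.1, sq_nonneg x.2]
    have h2 : x.2 = 0 := by nlinarith [sq_nonneg x.1, sq_nonneg x.2]
    have h3 : x = 0 := Prod.ext h1 h2
    exact hq (sub_eq_zero.1 (hx ▸ h3))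
  have hsum : ∑ e : Fin m × Fin m, c e * (rd2 (C s e.1) (C s e.2) - rd2 (A s e.1) (A s e.2) -
      rd2 (B s e.1) (B s e.2) + rd2 (q e.1) (q e.2)) = 0 := by
    simp only [mul_add, mul_sub, Finset.sum_add_distrib, Finset.sum_sub_distrib]
    rw [hsA, hsB, hsC, hq0]
    ring
  have hpair : (u, v) ≠ (v, u) := fun h => huv (congrArg Prod.fst h)
  rw [Finset.sum_eq_add (u, v) (v, u) hpair] at hsum
  · have hvu : v ≠ u := huv.symm
    simp only [A, B, C, Function.update_self, Function.update_of_ne huv,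
      Function.update_of_ne hvu] at hsum
    have e1 : ∀ p p' w : ℝ × ℝ, rd2 (p + w) (p' + w) = rd2 p p' := by
      intro p p' w
      simp [rd2]
    have e2 : rd2 (q u + s • (-x.2, x.1)) (q v) = Real.sqrt ((1 + s ^ 2) * (x.1 ^ 2 + x.2 ^ 2)) := by
      have h1 : x.1 = (q u).1 - (q v).1 := by rw [hx]; rfl
      have h2 : x.2 = (q u).2 - (q v).2 := by rw [hx]; rfl
      unfold rd2
      congr 1
      simp only [Prod.fst_add, Prod.snd_add, Prod.smul_fst, Prod.smul_snd, smul_eq_mul]
      rw [h1, h2]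
      ring
    have e3 : rd2 (q u) (q v + s • (-x.2, x.1)) = Real.sqrt ((1 + s ^ 2) * (x.1 ^ 2 + x.2 ^ 2)) := by
      have h1 : x.1 = (q u).1 - (q v).1 := by rw [hx]; rfl
      have h2 : x.2 = (q u).2 - (q v).2 := by rw [hx]; rfl
      unfold rd2
      congr 1
      simp only [Prod.fst_add, Prod.snd_add, Prod.smul_fst, Prod.smul_snd, smul_eq_mul]
      rw [h1, h2]
      ring
    have e4 : rd2 (q u) (q v) = Real.sqrt (x.1 ^ 2 + x.2 ^ 2) := by
      rw [hx]; rfl
    rw [rd2_comm (q v + s • (-x.2, x.1)) (q u + s • (-x.2, x.1)),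
      rd2_comm (q v) (q u + s • (-x.2, x.1)), rd2_comm (q v + s • (-x.2, x.1)) (q u),
      rd2_comm (q v) (q u), e1, e2, e3, e4] at hsum
    have hlt : Real.sqrt (x.1 ^ 2 + x.2 ^ 2) < Real.sqrt ((1 + s ^ 2) * (x.1 ^ 2 + x.2 ^ 2)) := by
      refine Real.sqrt_lt_sqrt hX.le ?_
      have : 0 < s ^ 2 := by positivity
      nlinarith
    have h5 : (c (u, v) + c (v, u)) * (2 * (Real.sqrt (x.1 ^ 2 + x.2 ^ 2) -
        Real.sqrt ((1 + s ^ 2) * (x.1 ^ 2 + x.2 ^ 2)))) = 0 := by
      rw [← hsum]; ring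
    rcases mul_eq_zero.1 h5 with h6 | h6
    · exact h6
    · exfalso; linarith
  · rintro ⟨i, j⟩ _ ⟨h1, h2⟩
    have key : rd2 (C s i) (C s j) - rd2 (A s i) (A s j) - rd2 (B s i) (B s j) +
        rd2 (q i) (q j) = 0 := by
      by_cases hiu : i = u
      · by_cases hju : j = u
        · subst hiu; subst hju
          simp [rd2]
        · by_cases hjv : j = v
          · exact absurd (by rw [hiu, hjv]) h1
          · subst hiu
            simp only [A, B, C, Function.update_self, Function.update_of_ne huv,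
              Function.update_of_ne hju, Function.update_of_ne hjv]
            ring
      · by_cases hiv : i = v
        · by_cases hju : j = u
          · exact absurd (by rw [hiv, hju]) h2
          · by_cases hjv : j = v
            · subst hiv; subst hjv
              simp [rd2]
            · subst hiv
              simp only [A, B, C, Function.update_self, Function.update_of_ne huv.symm,
                Function.update_of_ne hju, Function.update_of_ne hjv]
              ring
        · by_cases hju : j = u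
          · subst hju
            simp only [A, B, C, Function.update_self, Function.update_of_ne huv,
              Function.update_of_ne hiu, Function.update_of_ne hiv]
            ring
          · by_cases hjv : j = v
            · subst hjv
              simp only [A, B, C, Function.update_self, Function.update_of_ne huv.symm,
                Function.update_of_ne hiu, Function.update_of_ne hiv]
              ring
            · simp only [A, B, C, Function.update_of_ne hiu, Function.update_of_ne hiv,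
                Function.update_of_ne hju, Function.update_of_ne hjv]
              ring
    rw [key, mul_zero]
  · simp
  · simp

theorem L1 (hP : specP) : specL1 := by
  classical
  intro m pos ε 𝒮 hm hinj hε hbase τ hτ
  have hmpos : (0 : ℝ) < m := by
    have : 0 < m := by omega
    exact_mod_cast this
  obtain ⟨K, hK, t₀, ht₀, hPt⟩ := hP m pos
    (fun x y => if ∃ u v, pos u = (x, y) ∧ pos v = (x + 1, y) ∧ tc τ u v ≠ 0 then 0 else 1)
    (fun x y => if ∃ u v, pos u = (x, y) ∧ pos v = (x, y + 1) ∧ tc τ u v ≠ 0 then 0 else 1) hinj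
  -- the size of the perturbation
  obtain ⟨t, ht, htt₀, htε, htm, ht4⟩ : ∃ t : ℝ, 0 < t ∧ t < t₀ ∧ K * t < ε ∧ m * K * t < 1 ∧
      t ≤ 1 / 4 := by
    refine ⟨min (t₀ / 2) (min (ε / (2 * K)) (min (1 / (2 * m * K)) (1 / 4))), ?_, ?_, ?_, ?_, ?_⟩
    · exact lt_min (by positivity) (lt_min (by positivity) (lt_min (by positivity) (by norm_num)))
    · exact lt_of_le_of_lt (min_le_left _ _) (by linarith)
    · have h1 : min (t₀ / 2) (min (ε / (2 * K)) (min (1 / (2 * m * K)) (1 / 4))) ≤ ε / (2 * K) :=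
        (min_le_right _ _).trans (min_le_left _ _)
      have h2 := mul_le_mul_of_nonneg_left h1 hK.le
      have h3 : K * (ε / (2 * K)) = ε / 2 := by field_simp
      linarith
    · have h1 : min (t₀ / 2) (min (ε / (2 * K)) (min (1 / (2 * m * K)) (1 / 4))) ≤
          1 / (2 * m * K) :=
        (min_le_right _ _).trans ((min_le_right _ _).trans (min_le_left _ _))
      have h2 := mul_le_mul_of_nonneg_left h1 (mul_pos hmpos hK).le
      have h3 : m * K * (1 / (2 * m * K)) = 1 / 2 := by field_simp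
      linarith
    · exact (min_le_right _ _).trans ((min_le_right _ _).trans (min_le_right _ _))
  obtain ⟨q, hq1, hqH, hqV, hqN⟩ := hPt t ht htt₀
  -- edges
  have hUn : ∀ u v, Un (pos u) (pos v) → (tc τ u v ≠ 0 → 1 ≤ rd2 (q u) (q v) ∧
      rd2 (q u) (q v) ≤ 1 + K * t ^ 2) ∧ (tc τ u v = 0 → 1 + t ≤ rd2 (q u) (q v)) := by
    have hH : ∀ u v, pos v = ((pos u).1 + 1, (pos u).2) → (tc τ u v ≠ 0 → 1 ≤ rd2 (q u) (q v) ∧
      rd2 (q u) (q v) ≤ 1 + K * t ^ 2) ∧ (tc τ u v = 0 → 1 + t ≤ rd2 (q u) (q v)) := by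
      intro u v huv
      have h1 := hqH u v huv
      refine ⟨fun h => ?_, fun h => ?_⟩
      · rw [if_pos ⟨u, v, rfl, huv, h⟩] at h1
        exact ⟨by linarith [h1.1], by linarith [h1.2]⟩
      · rw [if_neg] at h1
        · linarith [h1.1]
        · rintro ⟨u', v', h2, h3, h4⟩
          have hu : u' = u := hinj (h2.trans rfl)
          have hv : v' = v := hinj (h3.trans huv.symm)
          rw [hu, hv] at h4
          exact h4 h
    have hV : ∀ u v, pos v = ((pos u).1, (pos u).2 + 1) → (tc τ u v ≠ 0 → 1 ≤ rd2 (q u) (q v) ∧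
      rd2 (q u) (q v) ≤ 1 + K * t ^ 2) ∧ (tc τ u v = 0 → 1 + t ≤ rd2 (q u) (q v)) := by
      intro u v huv
      have h1 := hqV u v huv
      refine ⟨fun h => ?_, fun h => ?_⟩
      · rw [if_pos ⟨u, v, rfl, huv, h⟩] at h1
        exact ⟨by linarith [h1.1], by linarith [h1.2]⟩
      · rw [if_neg] at h1
        · linarith [h1.1]
        · rintro ⟨u', v', h2, h3, h4⟩
          have hu : u' = u := hinj (h2.trans rfl)
          have hv : v' = v := hinj (h3.trans huv.symm)
          rw [hu, hv] at h4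
          exact h4 h
    intro u v h
    rcases h with h | h | h | h
    · exact hH u v h
    · rw [rd2_comm, tc_comm]; exact hH v u h
    · exact hV u v h
    · rw [rd2_comm, tc_comm]; exact hV v u h
  have hUnt : ∀ u v, tc τ u v ≠ 0 → Un (pos u) (pos v) := by
    intro u v h
    obtain ⟨i, ⟨h3, h4⟩ | ⟨h3, h4⟩⟩ := tc_exists τ h
    · have := hτ i
      rwa [h3, h4] at this
    · have := hτ i
      rw [h3, h4] at this
      exact Un_symm this
  have hlow : ∀ u v, u ≠ v → (1 : ℝ) ≤ rd2 (q u) (q v) ∧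
      (tc τ u v = 0 → 1 + t ≤ rd2 (q u) (q v)) := by
    intro u v huv
    by_cases hun : Un (pos u) (pos v)
    · obtain ⟨h1, h2⟩ := hUn u v hun
      refine ⟨?_, h2⟩
      by_cases h0 : tc τ u v = 0
      · linarith [h2 h0]
      · exact (h1 h0).1
    · have := hqN u v huv hun
      exact ⟨by linarith, fun _ => by linarith⟩
  -- optimality
  have hτlen : rlen q τ ≤ m + m * K * t ^ 2 := by
    unfold rlen
    have h1 : ∀ i ∈ (Finset.univ : Finset (Fin m)), rd2 (q (τ i)) (q (τ (finRotate m i))) ≤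
        1 + K * t ^ 2 := fun i _ => ((hUn _ _ (hτ i)).1 (tc_step τ i)).2
    refine (Finset.sum_le_sum h1).trans (le_of_eq ?_)
    rw [Finset.sum_const, Finset.card_univ, Fintype.card_fin, nsmul_eq_mul]
    ring
  have hstrict : ∀ σ : Equiv.Perm (Fin m), (∀ u v, tc σ u v = tc τ u v) ∨
      rlen q τ < rlen q σ := by
    intro σ
    by_cases hs : ∀ i, tc τ (σ i) (σ (finRotate m i)) ≠ 0
    · exact Or.inl (tc_eq_of_steps hm σ τ hs)
    · right
      push Not at hs
      obtain ⟨i₀, hi₀⟩ := hs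
      have h1 : (m : ℝ) + t ≤ rlen q σ := by
        unfold rlen
        have h2 : ∀ i ∈ (Finset.univ : Finset (Fin m)),
            (1 : ℝ) + (if i = i₀ then t else 0) ≤ rd2 (q (σ i)) (q (σ (finRotate m i))) := by
          intro i _
          obtain ⟨h3, h4⟩ := hlow _ _ (step_ne hm σ i)
          split_ifs with h5
          · subst h5; exact h4 hi₀
          · linarith
        refine le_trans (le_of_eq ?_) (Finset.sum_le_sum h2)
        rw [Finset.sum_add_distrib, Finset.sum_ite_eq' Finset.univ i₀, if_pos (Finset.mem_univ _)]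
        simp
      have h2 : m * K * t ^ 2 < t := by
        have : m * K * t * t < 1 * t := mul_lt_mul_of_pos_right htm ht
        calc m * K * t ^ 2 = m * K * t * t := by ring
          _ < 1 * t := this
          _ = t := one_mul t
      linarith
  have hcont : ∀ σ : Equiv.Perm (Fin m), Continuous fun q : Fin m → ℝ × ℝ => rlen q σ := by
    intro σ
    unfold rlen
    exact continuous_finsetSum _ fun i _ => rd2_continuous _ _
  -- a neighbourhood of `q`
  have hnear : ∀ᶠ q' in 𝓝 q, Near pos ε q' := by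
    unfold Near
    rw [Filter.eventually_all]
    intro i
    have c1 : Continuous fun q' : Fin m → ℝ × ℝ => |(q' i).1 - (pos i).1| := by fun_prop
    have c2 : Continuous fun q' : Fin m → ℝ × ℝ => |(q' i).2 - (pos i).2| := by fun_prop
    exact (c1.continuousAt.eventually_lt_const (lt_of_le_of_lt (hq1 i).1 htε)).and
      (c2.continuousAt.eventually_lt_const (lt_of_le_of_lt (hq1 i).2 htε))
  have hopt : ∀ᶠ q' in 𝓝 q, ∀ σ : Equiv.Perm (Fin m), rlen q' τ ≤ rlen q' σ := by
    rw [Filter.eventually_all]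
    intro σ
    rcases hstrict σ with h | h
    · refine Eventually.of_forall fun q' => le_of_eq ?_
      rw [rlen_eq hm, rlen_eq hm]
      exact Finset.sum_congr rfl fun e _ => by rw [h]
    · exact ((hcont τ).continuousAt.eventually_lt (hcont σ).continuousAt h).mono
        fun q' h' => h'.le
  have hdist : ∀ᶠ q' in 𝓝 q, ∀ u v : Fin m, u ≠ v → q' u ≠ q' v := by
    rw [Filter.eventually_all]
    intro u
    rw [Filter.eventually_all]
    intro v
    by_cases huv : u = v
    · exact Eventually.of_forall fun q' h => absurd huv h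
    · have h1 : 0 < rd2 (q u) (q v) := by linarith [(hlow u v huv).1]
      refine ((rd2_continuous u v).continuousAt.eventually_const_lt h1).mono fun q' h' _ h2 => ?_
      rw [h2] at h'
      simp [rd2] at h'
  obtain ⟨U, hU, hUo, hqU⟩ := eventually_nhds_iff.1 ((hnear.and hopt).and hdist)
  -- one exponent vector
  obtain ⟨a, ha, q', hq'U, hq'⟩ := exists_interior
    (fun a : Fin m × Fin m → ℕ => {q' : Fin m → ℝ × ℝ | aval a q' = rlen q' τ})
    (fun a => isClosed_eq (by
      unfold aval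
      exact continuous_finsetSum _ fun e _ => continuous_const.mul (rd2_continuous _ _)) (hcont τ))
    hbase.fin.toFinset U hUo ⟨q, hqU⟩ (fun q' hq' => by
      obtain ⟨⟨h1, h2⟩, -⟩ := hU q' hq'
      obtain ⟨a, ha, ha'⟩ := hbase.upp q' h1
      obtain ⟨σ, hσ⟩ := hbase.low q' h1 a ha
      refine ⟨a, hbase.fin.mem_toFinset.2 ha, le_antisymm (ha' τ) ((h2 σ).trans hσ)⟩)
  refine ⟨a, hbase.fin.mem_toFinset.1 ha, fun u v huv => ?_⟩
  have hne := (hU q' hq'U).2 u v huv
  have h1 := coeff_eq_zero (fun e => (a e : ℝ) - (tc τ e.1 e.2 : ℝ) / 2) q' (by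
    filter_upwards [isOpen_interior.mem_nhds hq'] with q'' hq''
    have h2 : aval a q'' = rlen q'' τ :=
      interior_subset (s := {q' : Fin m → ℝ × ℝ | aval a q' = rlen q' τ}) hq''
    rw [rlen_eq hm, aval] at h2
    simp only [sub_mul, Finset.sum_sub_distrib]
    linarith) huv hne
  simp only at h1
  rw [tc_comm τ v u] at h1
  have h2 : ((a (u, v) + a (v, u) : ℕ) : ℝ) = (tc τ u v : ℝ) := by
    push_cast
    linarith
  exact_mod_cast h2

end Pool.Agent.Helper37.TC
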